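import Mathlib

set_option autoImplicit false

/-!
# The forcing relation, the strong polarized relation and the dominating number of the extension

A sentence of the forcing language of a preordered set `P` of conditions is represented by the
set of the conditions which force it. Negation, conjunction and universal quantification are the
basic connectives, with their usual forcing clauses; the other connectives are defined from
them classically. A name for a subset of a ground model set `X` is a map sending `x : X` to the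
set of the conditions attached to `x`. Named relations between `ℕ` and `ℕ` which are functions
stand for the functions `ω → ω` of the extension. (Following the library of helper669.)
-/

namespace Pool.Agent.TH763.Rand

open Cardinal

universe u v w

section

variable {P : Type u} [Preorder P]

/-- `p` forces `not φ` iff no `q ≤ p` forces `φ`. -/
def fnot (φ : Set P) : Set P := {p | ∀ q ≤ p, q ∉ φ}

/-- `p` forces `φ and ψ` iff it forces both. -/
def fand (φ ψ : Set P) : Set P := {p | p ∈ φ ∧ p ∈ ψ}

/-- `p` forces `for all i, φ i` iff it forces every `φ i`. -/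
def fall {ι : Sort v} (φ : ι → Set P) : Set P := {p | ∀ i, p ∈ φ i}

/-- `φ implies ψ` is `not (φ and not ψ)`. -/
def fimp (φ ψ : Set P) : Set P := fnot (fand φ (fnot ψ))

/-- `φ or ψ` is `not (not φ and not ψ)`. -/
def for' (φ ψ : Set P) : Set P := fnot (fand (fnot φ) (fnot ψ))

/-- `there is i with φ i` is `not for all i, not φ i`. -/
def fex {ι : Sort v} (φ : ι → Set P) : Set P := fnot (fall fun i => fnot (φ i))

/-- An absolute statement about ground model objects. -/
def fground (h : Prop) : Set P := {_p | h}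

/-- `p` forces that the generic filter meets the set `N` of conditions:
the set of `r` lying below some member of `N` is dense below `p`. -/
def meets (N : Set P) : Set P := {p | ∀ q ≤ p, ∃ r ≤ q, ∃ s ∈ N, r ≤ s}

/-- The relation named by `R` is a function from `X` to `Y`. -/
def IsFun {X : Type v} {Y : Type w} (R : X → Y → Set P) : Set P :=
  fand (fall fun x => fex fun y => meets (R x y))
    (fall fun x => fall fun y => fall fun y' =>
      fimp (fand (meets (R x y)) (meets (R x y'))) (fground (y = y')))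

/-- The relation named by `R` is injective. -/
def IsInj {X : Type v} {Y : Type w} (R : X → Y → Set P) : Set P :=
  fall fun x => fall fun x' => fall fun y =>
    fimp (fand (meets (R x y)) (meets (R x' y))) (fground (x = x'))

/-- The relation named by `R` is onto `Y`. -/
def IsOnto {X : Type v} {Y : Type w} (R : X → Y → Set P) : Set P :=
  fall fun y => fex fun x => meets (R x y)

/-- The subset of `X` named by `A` has the same cardinality as `X`:
some injective function from `X` to `X` takes all its values in `A`. -/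
def HasFullSize {X : Type v} (A : X → Set P) : Set P :=
  fex fun R : X → X → Set P =>
    fand (IsFun R) (fand (IsInj R)
      (fall fun x => fall fun y => fimp (meets (R x y)) (meets (A y))))

/-- The strong polarized relation (for all `c : X × Y → 2` there are `A ⊆ X` and `B ⊆ Y`
with `|A| = |X|`, `|B| = |Y|` and `c` constant on `A × B`) in the generic extension.
The colouring is given by the set `{(x, y) : c (x, y) = 1}`. -/
def Polarized (P : Type u) [Preorder P] (X : Type v) (Y : Type w) : Set P :=
  fall fun c : X → Y → Set P =>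
    fex fun A : X → Set P => fex fun B : Y → Set P =>
      fand (HasFullSize A) (fand (HasFullSize B)
        (for'
          (fall fun x => fall fun y => fimp (fand (meets (A x)) (meets (B y))) (meets (c x y)))
          (fall fun x => fall fun y =>
            fimp (fand (meets (A x)) (meets (B y))) (fnot (meets (c x y))))))

/-- Every uncountable cardinal of the ground model is a cardinal of the extension: no function
from a set of smaller ground model cardinality `μ` to `ν` is onto. -/
def CardinalsPreserved (P : Type u) [Preorder P] : Set P :=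
  fall fun μ : Cardinal.{v} => fall fun ν : Cardinal.{v} => fall fun _ : μ < ν =>
    fall fun _ : ℵ₀ < ν =>
      fnot (fex fun R : μ.ord.ToType → ν.ord.ToType → Set P => fand (IsFun R) (IsOnto R))

/-- For the named functions `g` and `f` from `ℕ` to `ℕ`: `g n ≤ f n` for all but finitely
many `n`. -/
def FLeStar (g f : ℕ → ℕ → Set P) : Set P :=
  fex fun N : ℕ => fall fun n : ℕ => fall fun _ : N ≤ n => fall fun a : ℕ => fall fun b : ℕ =>
    fimp (fand (meets (g n a)) (meets (f n b))) (fground (a ≤ b))

/-- In the extension there is a dominating family indexed by `Y`: functions `F y : ω → ω`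
such that every function `g : ω → ω` is eventually bounded by some `F y`. -/
def HasDominatingFamily (P : Type u) [Preorder P] (Y : Type v) : Set P :=
  fex fun F : Y → ℕ → ℕ → Set P =>
    fand (fall fun y => IsFun (F y))
      (fall fun g : ℕ → ℕ → Set P => fimp (IsFun g) (fex fun y => FLeStar g (F y)))

/-- In the extension the dominating number is `κ`: there is a dominating family indexed by `κ`
and there is none indexed by a smaller cardinal. -/
def DominatingNumberIs (P : Type u) [Preorder P] (κ : Cardinal.{v}) : Set P :=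
  fand (HasDominatingFamily P κ.ord.ToType)
    (fall fun μ : Cardinal.{v} => fall fun _ : μ < κ => fnot (HasDominatingFamily P μ.ord.ToType))

end

/-! ### General facts -/

section

variable {P : Type u} [Preorder P]

theorem mem_fex {ι : Sort v} {φ : ι → Set P} {p : P} :
    p ∈ fex φ ↔ ∀ q ≤ p, ∃ r ≤ q, ∃ i, r ∈ φ i := by
  simp only [fex, fnot, fall, Set.mem_ofPred_eq, not_forall, not_not]
  constructor
  · intro h q hq
    obtain ⟨i, r, hr, h'⟩ := h q hq
    exact ⟨r, hr, i, h'⟩
  · intro h q hq
    obtain ⟨r, hr, i, h'⟩ := h q hq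
    exact ⟨i, r, hr, h'⟩

theorem mem_fimp {φ ψ : Set P} {p : P} :
    p ∈ fimp φ ψ ↔ ∀ q ≤ p, q ∈ φ → ∃ r ≤ q, r ∈ ψ := by
  simp only [fimp, fnot, fand, Set.mem_ofPred_eq, not_and, not_forall, not_not]
  constructor
  · intro h q hq h'
    obtain ⟨r, hr, h''⟩ := h q hq h'
    exact ⟨r, hr, h''⟩
  · intro h q hq h'
    obtain ⟨r, hr, h''⟩ := h q hq h'
    exact ⟨r, hr, h''⟩

theorem mem_for {φ ψ : Set P} {p : P} :
    p ∈ for' φ ψ ↔ ∀ q ≤ p, ∃ r ≤ q, r ∈ φ ∨ r ∈ ψ := by
  simp only [for', fnot, fand, Set.mem_ofPred_eq, not_and_or, not_forall, not_not]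
  constructor
  · intro h q hq
    rcases h q hq with ⟨r, hr, h'⟩ | ⟨r, hr, h'⟩
    · exact ⟨r, hr, Or.inl h'⟩
    · exact ⟨r, hr, Or.inr h'⟩
  · intro h q hq
    obtain ⟨r, hr, h' | h'⟩ := h q hq
    · exact Or.inl ⟨r, hr, h'⟩
    · exact Or.inr ⟨r, hr, h'⟩

/-- The statement `φ` is preserved by passing to stronger conditions. -/
def Down (φ : Set P) : Prop := ∀ p ∈ φ, ∀ q ≤ p, q ∈ φ

theorem down_fnot (φ : Set P) : Down (fnot φ) :=
  fun _ hp _ hq r hr => hp r (hr.trans hq)

theorem down_fand {φ ψ : Set P} (h : Down φ) (h' : Down ψ) : Down (fand φ ψ) :=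
  fun _ hp _ hq => ⟨h _ hp.1 _ hq, h' _ hp.2 _ hq⟩

theorem down_fall {ι : Sort v} {φ : ι → Set P} (h : ∀ i, Down (φ i)) : Down (fall φ) :=
  fun _ hp _ hq i => h i _ (hp i) _ hq

theorem down_fex {ι : Sort v} (φ : ι → Set P) : Down (fex φ) := down_fnot _

theorem down_for (φ ψ : Set P) : Down (for' φ ψ) := down_fnot _

theorem down_fimp (φ ψ : Set P) : Down (fimp φ ψ) := down_fnot _

theorem down_fground (h : Prop) : Down (fground (P := P) h) := fun _ hp _ _ => hp

theorem down_meets (N : Set P) : Down (meets N) :=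
  fun _ hp _ hq r hr => hp r (hr.trans hq)

theorem down_IsFun {X : Type v} {Y : Type w} (R : X → Y → Set P) : Down (IsFun R) :=
  down_fand (down_fall fun _ => down_fex _)
    (down_fall fun _ => down_fall fun _ => down_fall fun _ => down_fimp _ _)

theorem down_IsInj {X : Type v} {Y : Type w} (R : X → Y → Set P) : Down (IsInj R) :=
  down_fall fun _ => down_fall fun _ => down_fall fun _ => down_fimp _ _

theorem down_HasFullSize {X : Type v} (A : X → Set P) : Down (HasFullSize A) := down_fex _

theorem down_FLeStar (g f : ℕ → ℕ → Set P) : Down (FLeStar g f) := down_fex _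

theorem mem_fex_of_mem {ι : Sort v} {φ : ι → Set P} {p : P} (i : ι) (hd : Down (φ i))
    (h : p ∈ φ i) : p ∈ fex φ :=
  mem_fex.2 fun q hq => ⟨q, le_rfl, i, hd _ h _ hq⟩

theorem meets_of_le {N : Set P} {p s : P} (hs : s ∈ N) (h : p ≤ s) : p ∈ meets N :=
  fun q hq => ⟨q, le_rfl, s, hs, hq.trans h⟩

theorem IsFun.total {X : Type v} {Y : Type w} {R : X → Y → Set P} {p : P} (h : p ∈ IsFun R)
    (x : X) : ∃ q ≤ p, ∃ y, q ∈ meets (R x y) := mem_fex.1 (h.1 x) p le_rfl

theorem IsFun.unique {X : Type v} {Y : Type w} {R : X → Y → Set P} {p : P} (h : p ∈ IsFun R)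
    {x : X} {y y' : Y} (h1 : p ∈ meets (R x y)) (h2 : p ∈ meets (R x y')) : y = y' := by
  obtain ⟨r, _, hr⟩ := mem_fimp.1 (h.2 x y y') p le_rfl ⟨h1, h2⟩
  exact hr

theorem IsInj.eq {X : Type v} {Y : Type w} {R : X → Y → Set P} {p : P} (h : p ∈ IsInj R)
    {x x' : X} {y : Y} (h1 : p ∈ meets (R x y)) (h2 : p ∈ meets (R x' y)) : x = x' := by
  obtain ⟨r, _, hr⟩ := mem_fimp.1 (h x x' y) p le_rfl ⟨h1, h2⟩
  exact hr

/-- A subset of `ω` of full size is infinite. -/
theorem exists_mem_ge {B : ℕ → Set P} {p : P} (hp : p ∈ HasFullSize B) (m : ℕ) :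
    ∃ r ≤ p, ∃ n, m ≤ n ∧ r ∈ meets (B n) := by
  obtain ⟨q, hq, R, hR1, hR2, hR3⟩ := mem_fex.1 hp p le_rfl
  by_contra hcon
  push Not at hcon
  have hdec : ∀ k : ℕ, ∃ r ≤ q, ∃ f : ℕ → ℕ, ∀ i < k, r ∈ meets (R i (f i)) ∧ r ∈ meets (B (f i)) := by
    intro k
    induction k with
    | zero => exact ⟨q, le_rfl, id, fun i hi => absurd hi (Nat.not_lt_zero i)⟩
    | succ k ih =>
      obtain ⟨r, hr, f, hf⟩ := ih
      obtain ⟨r1, hr1, y, hy⟩ := mem_fex.1 (hR1.1 k) r hr
      obtain ⟨r2, hr2, h2⟩ := mem_fimp.1 (hR3 k y) r1 (hr1.trans hr) hy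
      refine ⟨r2, hr2.trans (hr1.trans hr), Function.update f k y, fun i hi => ?_⟩
      rcases Nat.lt_succ_iff_lt_or_eq.1 hi with hi' | rfl
      · rw [Function.update_of_ne hi'.ne]
        exact ⟨down_meets _ _ (hf i hi').1 _ (hr2.trans hr1),
          down_meets _ _ (hf i hi').2 _ (hr2.trans hr1)⟩
      · rw [Function.update_self]
        exact ⟨down_meets _ _ hy _ hr2, h2⟩
  obtain ⟨r, hr, f, hf⟩ := hdec (m + 1)
  have hlt : ∀ i ∈ Finset.range (m + 1), f i ∈ Finset.range m := by
    intro i hi
    by_contra hge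
    exact hcon r (hr.trans hq) (f i) (not_lt.1 fun h => hge (Finset.mem_range.2 h))
      (hf i (Finset.mem_range.1 hi)).2
  obtain ⟨i, hi, j, hj, hij, hfij⟩ :=
    Finset.exists_ne_map_eq_of_card_lt_of_maps_to (by simp) hlt
  have hi' := (hf i (Finset.mem_range.1 hi)).1
  have hj' := (hf j (Finset.mem_range.1 hj)).1
  rw [← hfij] at hj'
  obtain ⟨_, _, h'⟩ := mem_fimp.1 (hR2 i j (f i)) r hr ⟨hi', hj'⟩
  exact hij h'

/-- A forcing notion with the countable chain condition preserves cardinals. -/
theorem cardinalsPreserved_of_ccc {Q : Type} [Preorder Q]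
    (hcc : ∀ (ι : Type) (f : ι → Q), ℵ₀ < #ι → ∃ i j, i ≠ j ∧ ∃ r, r ≤ f i ∧ r ≤ f j) (q : Q) :
    q ∈ CardinalsPreserved.{0, 0} Q := by
  intro μ ν hμν hν q1 hq1 hex
  obtain ⟨q2, hq2, R, hfun, honto⟩ := mem_fex.1 hex q1 le_rfl
  let V : μ.ord.ToType → Set ν.ord.ToType := fun x => {y | ∃ r ≤ q2, r ∈ meets (R x y)}
  have hV : ∀ x, #(V x) ≤ ℵ₀ := by
    intro x
    by_contra hc
    rw [not_le] at hc
    have hch : ∀ y : V x, ∃ r ≤ q2, r ∈ meets (R x y.1) := fun y => y.2
    choose f hf1 hf2 using hch
    obtain ⟨i, j, hij, r, hri, hrj⟩ := hcc (V x) f hc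
    apply hij
    apply Subtype.ext
    have hr : r ∈ IsFun R := down_IsFun R _ hfun r (hri.trans (hf1 i))
    exact IsFun.unique hr (down_meets _ _ (hf2 i) r hri) (down_meets _ _ (hf2 j) r hrj)
  have hU : (⋃ x, V x) = Set.univ := by
    rw [Set.eq_univ_iff_forall]
    intro y
    obtain ⟨r, hr, x, h⟩ := mem_fex.1 (honto y) q2 le_rfl
    exact Set.mem_iUnion.2 ⟨x, r, hr, h⟩
  have h1 : ν ≤ μ * ℵ₀ := by
    calc ν = #(ν.ord.ToType) := (Cardinal.mk_ord_toType ν).symm
      _ = #(Set.univ : Set ν.ord.ToType) := Cardinal.mk_univ.symm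
      _ = #(⋃ x, V x) := by rw [hU]
      _ ≤ Cardinal.sum fun x => #(V x) := Cardinal.mk_iUnion_le_sum_mk
      _ ≤ Cardinal.sum fun _ : μ.ord.ToType => ℵ₀ := Cardinal.sum_le_sum _ _ hV
      _ = μ * ℵ₀ := by rw [Cardinal.sum_const', Cardinal.mk_ord_toType]
  exact absurd h1 (not_le.2 (Cardinal.mul_lt_of_lt hν.le hμν hν))

end

end Pool.Agent.TH763.Rand
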