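import Mathlib
import Pool.Agent.TH763.Rand.Forcing

set_option autoImplicit false

/-!
# Forcing with the measure algebra of a probability space
-/

namespace Pool.Agent.TH763.Rand

open Cardinal MeasureTheory Filter
open scoped ENNReal Topology

/-- The forcing with the measure algebra of a measure `μ`: the conditions are the
measurable sets which are not null, and `E ≤ F` means that `E` is contained in `F` up to a
null set. -/
structure MAlg {Ω : Type} [MeasurableSpace Ω] (μ : Measure Ω) where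
  /-- the measurable set -/
  set : Set Ω
  /-- it is measurable -/
  meas : MeasurableSet set
  /-- it is not null -/
  pos : μ set ≠ 0

section

variable {Ω : Type} [MeasurableSpace Ω] {μ : Measure Ω}

theorem null_trans {E F G : Set Ω} (h1 : μ (E \ F) = 0) (h2 : μ (F \ G) = 0) : μ (E \ G) = 0 := by
  refine measure_mono_null ?_ (measure_union_null h1 h2)
  intro x hx
  by_cases h : x ∈ F
  · exact Or.inr ⟨h, hx.2⟩
  · exact Or.inl ⟨hx.1, h⟩

instance : Preorder (MAlg μ) where
  le E F := μ (E.set \ F.set) = 0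
  le_refl E := by simp
  le_trans _ _ _ h1 h2 := null_trans h1 h2

theorem MAlg.le_iff {E F : MAlg μ} : E ≤ F ↔ μ (E.set \ F.set) = 0 := Iff.rfl

/-- the restriction of a condition to a measurable set -/
def MAlg.inter (E : MAlg μ) (F : Set Ω) (hF : MeasurableSet F) (h : μ (E.set ∩ F) ≠ 0) : MAlg μ :=
  ⟨E.set ∩ F, E.meas.inter hF, h⟩

theorem MAlg.inter_le (E : MAlg μ) (F : Set Ω) (hF : MeasurableSet F) (h : μ (E.set ∩ F) ≠ 0) :
    E.inter F hF h ≤ E := by
  have : (E.set ∩ F) \ E.set = ∅ := by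
    ext x; simp only [Set.mem_sdiff, Set.mem_inter_iff, Set.mem_empty_iff_false, iff_false]; tauto
  show μ ((E.set ∩ F) \ E.set) = 0
  rw [this]; simp

theorem MAlg.inter_sub (E : MAlg μ) (F : Set Ω) (hF : MeasurableSet F) (h : μ (E.set ∩ F) ≠ 0) :
    μ ((E.inter F hF h).set \ F) = 0 := by
  have : (E.set ∩ F) \ F = ∅ := by
    ext x; simp only [Set.mem_sdiff, Set.mem_inter_iff, Set.mem_empty_iff_false, iff_false]; tauto
  show μ ((E.set ∩ F) \ F) = 0
  rw [this]; simp

theorem inter_pos {E F : Set Ω} (h : μ E ≠ 0) (h' : μ (E \ F) = 0) : μ (E ∩ F) ≠ 0 := by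
  intro h0
  apply h
  refine measure_mono_null ?_ (measure_union_null h0 h')
  intro x hx
  by_cases hF : x ∈ F
  · exact Or.inl ⟨hx, hF⟩
  · exact Or.inr ⟨hx, hF⟩

variable [IsFiniteMeasure μ]

/-- the essential union of a family of measurable sets is a countable union -/
theorem exists_ess (N : Set (MAlg μ)) : ∃ C ⊆ N, C.Countable ∧
    ∀ s ∈ N, μ (s.set \ ⋃ c ∈ C, c.set) = 0 := by
  classical
  let S : Set ℝ≥0∞ := {m | ∃ C ⊆ N, C.Countable ∧ m = μ (⋃ c ∈ C, c.set)}
  have hne : S.Nonempty := ⟨_, ∅, Set.empty_subset _, Set.countable_empty, rfl⟩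
  obtain ⟨u, _, hlim, hu⟩ := exists_seq_tendsto_sSup hne (OrderTop.bddAbove S)
  choose C hCN hCc hC using hu
  refine ⟨⋃ n, C n, Set.iUnion_subset hCN, Set.countable_iUnion hCc, fun s hs => ?_⟩
  have hcount : (⋃ n, C n).Countable := Set.countable_iUnion hCc
  have hle : ∀ n, u n ≤ μ (⋃ c ∈ ⋃ n, C n, c.set) := by
    intro n
    rw [hC n]
    refine measure_mono (Set.biUnion_subset_biUnion_left (Set.subset_iUnion C n))
  have hsup : sSup S ≤ μ (⋃ c ∈ ⋃ n, C n, c.set) := le_of_tendsto' hlim hle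
  have hmem : μ (⋃ c ∈ insert s (⋃ n, C n), c.set) ∈ S :=
    ⟨insert s (⋃ n, C n), Set.insert_subset hs (Set.iUnion_subset hCN), hcount.insert s, rfl⟩
  have h1 : μ (⋃ c ∈ insert s (⋃ n, C n), c.set) ≤ μ (⋃ c ∈ ⋃ n, C n, c.set) :=
    (le_sSup hmem).trans hsup
  have hmeas : MeasurableSet (⋃ c ∈ ⋃ n, C n, c.set) :=
    MeasurableSet.biUnion hcount fun c _ => c.meas
  rw [Set.biUnion_insert] at h1
  have h2 : μ (s.set ∪ ⋃ c ∈ ⋃ n, C n, c.set) =
      μ (⋃ c ∈ ⋃ n, C n, c.set) + μ (s.set \ ⋃ c ∈ ⋃ n, C n, c.set) := by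
    rw [← measure_union disjoint_sdiff_self_right (MeasurableSet.diff s.meas hmeas), Set.union_sdiff_self,
      Set.union_comm]
  rw [h2] at h1
  by_contra hpos
  exact absurd h1 (not_le.2 (ENNReal.lt_add_right (measure_ne_top _ _) hpos))

/-- the value of a name component: the essential union of a set of conditions -/
noncomputable def val (N : Set (MAlg μ)) : Set Ω := ⋃ c ∈ (exists_ess N).choose, c.set

theorem measurableSet_val (N : Set (MAlg μ)) : MeasurableSet (val N) :=
  MeasurableSet.biUnion (exists_ess N).choose_spec.2.1 fun c _ => c.meas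

theorem mem_meets {N : Set (MAlg μ)} {p : MAlg μ} : p ∈ meets N ↔ μ (p.set \ val N) = 0 := by
  obtain ⟨h1, h2, h3⟩ := (exists_ess N).choose_spec
  constructor
  · intro h
    by_contra hpos
    have hm := MeasurableSet.diff p.meas (measurableSet_val N)
    obtain ⟨r, hr, s, hs, hrs⟩ := h ⟨p.set \ val N, hm, hpos⟩ (by
      show μ ((p.set \ val N) \ p.set) = 0
      rw [show (p.set \ val N) \ p.set = ∅ by
        ext x; simp only [Set.mem_sdiff, Set.mem_empty_iff_false, iff_false]; tauto]
      simp)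
    have h4 : μ (r.set \ val N) = 0 := null_trans hrs (h3 s hs)
    have h5 : μ (r.set \ (p.set \ val N)) = 0 := hr
    apply r.pos
    refine measure_mono_null ?_ (measure_union_null h4 h5)
    intro x hx
    by_cases hv : x ∈ val N
    · exact Or.inr ⟨hx, fun h => h.2 hv⟩
    · exact Or.inl ⟨hx, hv⟩
  · intro h q hq
    have h4 : μ (q.set \ val N) = 0 := null_trans hq h
    have h5 : μ (q.set ∩ val N) ≠ 0 := inter_pos q.pos h4
    have h6 : ∃ c ∈ (exists_ess N).choose, μ (q.set ∩ c.set) ≠ 0 := by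
      by_contra hcon
      push Not at hcon
      apply h5
      unfold val
      rw [Set.inter_iUnion₂]
      exact (measure_biUnion_null_iff h2).2 hcon
    obtain ⟨c, hc, h7⟩ := h6
    exact ⟨q.inter c.set c.meas h7, q.inter_le _ _ _, c, h1 hc, q.inter_sub _ _ _⟩

/-- the countable chain condition -/
theorem MAlg.ccc (ι : Type) (f : ι → MAlg μ) (hι : ℵ₀ < #ι) :
    ∃ i j, i ≠ j ∧ ∃ r, r ≤ f i ∧ r ≤ f j := by
  by_contra hcon
  push Not at hcon
  have hdisj : Pairwise (Function.onFun (AEDisjoint μ) fun i => (f i).set) := by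
    intro i j hij
    by_contra h
    have h' : μ ((f i).set ∩ (f j).set) ≠ 0 := h
    exact hcon i j hij ((f i).inter (f j).set (f j).meas h') ((f i).inter_le _ _ _)
      ((f i).inter_sub _ _ _)
  have h1 := Measure.countable_meas_pos_of_disjoint_iUnion₀
    (fun i => (f i).meas.nullMeasurableSet) hdisj
  have h2 : {i : ι | 0 < μ (f i).set} = Set.univ := by
    ext i
    simp only [Set.mem_ofPred_eq, Set.mem_univ, iff_true]
    exact pos_iff_ne_zero.2 (f i).pos
  rw [h2, Set.countable_univ_iff] at h1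
  exact absurd (Cardinal.mk_le_aleph0) (not_le.2 hι)

end

end Pool.Agent.TH763.Rand
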