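import Mathlib
import Pool.Agent.TH763.Rand.Alg

set_option autoImplicit false

/-!
# A measure algebra is `ω^ω`-bounding and keeps the dominating number
-/

namespace Pool.Agent.TH763.Rand

open Cardinal MeasureTheory Filter
open scoped ENNReal Topology

/-- `g ≤* f`: `g n ≤ f n` for all but finitely many `n`. -/
def LeStar (g f : ℕ → ℕ) : Prop := ∃ N, ∀ n, N ≤ n → g n ≤ f n

/-- A dominating family: every `g` is `≤*` some member. -/
def IsDominating (F : Set (ℕ → ℕ)) : Prop := ∀ g : ℕ → ℕ, ∃ f ∈ F, LeStar g f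

/-- The dominating number `𝔡`. -/
noncomputable def dominatingNumber : Cardinal.{0} :=
  sInf {κ | ∃ F : Set (ℕ → ℕ), IsDominating F ∧ #F = κ}

theorem exists_dominating : ∃ F : Set (ℕ → ℕ), IsDominating F ∧ #F = dominatingNumber := by
  have h : dominatingNumber ∈ {κ | ∃ F : Set (ℕ → ℕ), IsDominating F ∧ #F = κ} :=
    csInf_mem ⟨_, Set.univ, fun g => ⟨g, Set.mem_univ _, 0, fun _ _ => le_rfl⟩, rfl⟩
  exact h

theorem dominatingNumber_le {F : Set (ℕ → ℕ)} (hF : IsDominating F) : dominatingNumber ≤ #F :=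
  csInf_le' ⟨F, hF, rfl⟩

theorem aleph0_lt_dominatingNumber : ℵ₀ < dominatingNumber := by
  by_contra hcon
  obtain ⟨F, hF, hcard⟩ := exists_dominating
  have hc : F.Countable := by
    rw [← Cardinal.le_aleph0_iff_set_countable, hcard]
    exact not_lt.1 hcon
  have hne : F.Nonempty := by
    obtain ⟨f, hf, _⟩ := hF id
    exact ⟨f, hf⟩
  obtain ⟨e, he⟩ := hc.exists_eq_range hne
  obtain ⟨f, hf, N, hN⟩ := hF (fun n => 1 + ∑ j ∈ Finset.range (n + 1), e j n)
  rw [he] at hf
  obtain ⟨j, rfl⟩ := hf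
  have h1 : 1 + ∑ i ∈ Finset.range (max j N + 1), e i (max j N) ≤ e j (max j N) :=
    hN (max j N) (le_max_right _ _)
  have h2 : e j (max j N) ≤ ∑ i ∈ Finset.range (max j N + 1), e i (max j N) :=
    Finset.single_le_sum (f := fun i => e i (max j N)) (fun _ _ => Nat.zero_le _)
      (Finset.mem_range.2 (by omega))
  omega

section

variable {Ω : Type} [MeasurableSpace Ω] {μ : Measure Ω} [IsFiniteMeasure μ]

/-- Bounding: off a set of small measure the named function `g` is bounded by a ground model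
function. -/
theorem exists_bound {g : ℕ → ℕ → Set (MAlg μ)} {p : MAlg μ} (hg : p ∈ IsFun g) {ε : ℝ≥0∞}
    (hε : ε ≠ 0) : ∃ (h : ℕ → ℕ) (D : Set Ω), MeasurableSet D ∧ μ (p.set \ D) < ε ∧
      ∀ t ≤ p, μ (t.set \ D) = 0 → ∀ n a, t ∈ meets (g n a) → a ≤ h n := by
  obtain ⟨δ, hδ, hsum⟩ := ENNReal.exists_pos_sum_of_countable' hε ℕ
  -- the values cover almost everything
  have hcov : ∀ n, μ (p.set \ ⋃ a, val (g n a)) = 0 := by
    intro n
    by_contra hpos
    have hm : MeasurableSet (p.set \ ⋃ a, val (g n a)) :=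
      p.meas.diff (MeasurableSet.iUnion fun a => measurableSet_val _)
    have hle : μ ((p.set \ ⋃ a, val (g n a)) \ p.set) = 0 := by
      rw [show (p.set \ ⋃ a, val (g n a)) \ p.set = ∅ by
        ext x; simp only [Set.mem_sdiff, Set.mem_empty_iff_false, iff_false]; tauto]
      simp
    obtain ⟨t, ht, a, hta⟩ := mem_fex.1 (hg.1 n) ⟨_, hm, hpos⟩ hle
    have h1 : μ (t.set \ val (g n a)) = 0 := mem_meets.1 hta
    have h2 : μ (t.set \ (p.set \ ⋃ a, val (g n a))) = 0 := ht
    apply t.pos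
    refine measure_mono_null ?_ (measure_union_null h1 h2)
    intro x hx
    by_cases hxb : x ∈ val (g n a)
    · exact Or.inr ⟨hx, fun h => h.2 (Set.mem_iUnion.2 ⟨a, hxb⟩)⟩
    · exact Or.inl ⟨hx, hxb⟩
  have hex : ∀ n, ∃ k, μ (p.set \ ⋃ a ∈ Set.Iic k, val (g n a)) < δ n := by
    intro n
    have hanti : Antitone fun k : ℕ => p.set \ ⋃ a ∈ Set.Iic k, val (g n a) := by
      intro k k' hkk'
      refine Set.sdiff_subset_sdiff_right ?_
      exact Set.biUnion_subset_biUnion_left (Set.Iic_subset_Iic.2 hkk')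
    have hlim := tendsto_measure_iInter_atTop (μ := μ)
      (s := fun k : ℕ => p.set \ ⋃ a ∈ Set.Iic k, val (g n a))
      (fun k => (p.meas.diff
        (MeasurableSet.biUnion (Set.to_countable _) fun a _ => measurableSet_val _)).nullMeasurableSet)
      hanti ⟨0, measure_ne_top _ _⟩
    have h0 : μ (⋂ k : ℕ, (p.set \ ⋃ a ∈ Set.Iic k, val (g n a))) = 0 := by
      refine measure_mono_null ?_ (hcov n)
      intro x hx
      rw [Set.mem_iInter] at hx
      refine ⟨(hx 0).1, fun hx' => ?_⟩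
      obtain ⟨a, ha⟩ := Set.mem_iUnion.1 hx'
      exact (hx a).2 (Set.mem_biUnion (Set.mem_Iic.2 le_rfl) ha)
    rw [h0] at hlim
    exact ((tendsto_order.1 hlim).2 _ (hδ n)).exists
  choose h hh using hex
  refine ⟨h, ⋂ n, ⋃ a ∈ Set.Iic (h n), val (g n a), ?_, ?_, ?_⟩
  · exact MeasurableSet.iInter fun n =>
      MeasurableSet.biUnion (Set.to_countable _) fun a _ => measurableSet_val _
  · calc μ (p.set \ ⋂ n, ⋃ a ∈ Set.Iic (h n), val (g n a))
        = μ (⋃ n, (p.set \ ⋃ a ∈ Set.Iic (h n), val (g n a))) := by rw [Set.sdiff_iInter]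
      _ ≤ ∑' n, μ (p.set \ ⋃ a ∈ Set.Iic (h n), val (g n a)) := measure_iUnion_le _
      _ ≤ ∑' n, δ n := ENNReal.tsum_le_tsum fun n => (hh n).le
      _ < ε := hsum
  · intro t ht htD n a hta
    have h1 : μ (t.set \ ⋃ a ∈ Set.Iic (h n), val (g n a)) = 0 :=
      measure_mono_null (Set.sdiff_subset_sdiff_right (Set.iInter_subset _ n)) htD
    have h2 : μ (t.set ∩ ⋃ a ∈ Set.Iic (h n), val (g n a)) ≠ 0 := inter_pos t.pos h1
    have h3 : ∃ a' ∈ Set.Iic (h n), μ (t.set ∩ val (g n a')) ≠ 0 := by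
      by_contra hcon
      push Not at hcon
      apply h2
      rw [Set.inter_iUnion₂]
      exact (measure_biUnion_null_iff (Set.to_countable _)).2 hcon
    obtain ⟨a', ha', h4⟩ := h3
    have h5 := t.inter_le (val (g n a')) (measurableSet_val _) h4
    have h6 := t.inter_sub (val (g n a')) (measurableSet_val _) h4
    have h7 := IsFun.unique (down_IsFun g _ hg _ (h5.trans ht)) (mem_meets.2 h6)
      (down_meets _ _ hta _ h5)
    rw [← h7]
    exact ha'

/-- a ground model function is forced to be a function -/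
def check {X Y : Type} {P : Type} (f : X → Y) (x : X) (y : Y) : Set P := {_p | f x = y}

omit [IsFiniteMeasure μ] in
theorem mem_meets_check {X Y : Type} {f : X → Y} {x : X} {y : Y} {p : MAlg μ} :
    p ∈ meets (check f x y) ↔ f x = y := by
  constructor
  · intro h
    obtain ⟨r, _, s, hs, _⟩ := h p le_rfl
    exact hs
  · intro h
    exact meets_of_le (s := p) h le_rfl

omit [IsFiniteMeasure μ] in
theorem isFun_check {X Y : Type} (f : X → Y) (p : MAlg μ) : p ∈ IsFun (check f) := by
  refine ⟨fun x => mem_fex_of_mem (f x) (down_meets _) (mem_meets_check.2 rfl), ?_⟩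
  intro x y y'
  refine mem_fimp.2 fun q _ h => ⟨q, le_rfl, ?_⟩
  exact (mem_meets_check.1 h.1).symm.trans (mem_meets_check.1 h.2)

/-- The dominating number of the ground model is the dominating number of the extension. -/
theorem dominatingNumberIs (p : MAlg μ) :
    p ∈ DominatingNumberIs (MAlg μ) dominatingNumber := by
  refine ⟨?_, ?_⟩
  · obtain ⟨F, hF, hcard⟩ := exists_dominating
    have hcard' : #(dominatingNumber.ord.ToType) = #F := by
      rw [Cardinal.mk_ord_toType, hcard]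
    obtain ⟨e⟩ := Cardinal.eq.1 hcard'
    refine mem_fex_of_mem (fun y => check (e y).1) ?_ ⟨fun y => isFun_check _ p, ?_⟩
    · exact down_fand (down_fall fun _ => down_IsFun _) (down_fall fun _ => down_fimp _ _)
    intro g
    refine mem_fimp.2 fun q _ hg => ?_
    obtain ⟨h, D, hD, hpos, hbd⟩ := exists_bound hg (ε := μ q.set) q.pos
    have h1 : μ (q.set ∩ D) ≠ 0 := by
      intro h0
      have h2 : μ q.set ≤ μ (q.set ∩ D) + μ (q.set \ D) := measure_le_inter_add_sdiff _ _ _
      rw [h0, zero_add] at h2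
      exact absurd h2 (not_le.2 hpos)
    obtain ⟨f, hf, N, hN⟩ := hF h
    refine ⟨q.inter D hD h1, q.inter_le _ _ _, mem_fex_of_mem (e.symm ⟨f, hf⟩)
      (down_FLeStar _ _) (mem_fex_of_mem N ?_ ?_)⟩
    · exact down_fall fun _ => down_fall fun _ => down_fall fun _ => down_fall fun _ =>
        down_fimp _ _
    intro n hn a b
    refine mem_fimp.2 fun t ht hab => ⟨t, le_rfl, ?_⟩
    have h3 : a ≤ h n := hbd t (ht.trans (q.inter_le _ _ _))
      (null_trans ht (q.inter_sub _ _ _)) n a hab.1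
    have h4 : f n = b := by
      have := mem_meets_check.1 hab.2
      simpa using this
    show a ≤ b
    rw [← h4]
    exact h3.trans (hN n hn)
  · intro κ hκ q hq hdom
    obtain ⟨r, hr, F, hF1, hF2⟩ := mem_fex.1 hdom q le_rfl
    -- countably many bounds for every named function
    have hex : ∀ (y : κ.ord.ToType) (m : ℕ), ∃ (h : ℕ → ℕ) (D : Set Ω), MeasurableSet D ∧
        μ (r.set \ D) < ((m : ℝ≥0∞) + 1)⁻¹ ∧
        ∀ t ≤ r, μ (t.set \ D) = 0 → ∀ n a, t ∈ meets (F y n a) → a ≤ h n := by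
      intro y m
      refine exists_bound (hF1 y) (ENNReal.inv_ne_zero.2 ?_)
      exact ENNReal.add_ne_top.2 ⟨ENNReal.natCast_ne_top m, ENNReal.one_ne_top⟩
    choose h D hD hDr hb using hex
    -- they do not dominate
    have hsmall : #(Set.range fun z : κ.ord.ToType × ℕ => h z.1 z.2) < dominatingNumber := by
      refine Cardinal.mk_range_le.trans_lt ?_
      rw [Cardinal.mk_prod, Cardinal.lift_id, Cardinal.lift_id, Cardinal.mk_ord_toType,
        Cardinal.mk_nat]
      exact Cardinal.mul_lt_of_lt aleph0_lt_dominatingNumber.le hκ aleph0_lt_dominatingNumber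
    have hnd : ¬ IsDominating (Set.range fun z : κ.ord.ToType × ℕ => h z.1 z.2) := fun hd =>
      absurd (dominatingNumber_le hd) (not_le.2 hsmall)
    unfold IsDominating at hnd
    push Not at hnd
    obtain ⟨f, hf⟩ := hnd
    -- but the ground model function `f` is bounded by a named function
    obtain ⟨r1, hr1, h1⟩ := mem_fimp.1 (hF2 (check f)) r le_rfl (isFun_check f r)
    obtain ⟨r2, hr2, y, h2⟩ := mem_fex.1 h1 r1 le_rfl
    obtain ⟨r3, hr3, N, h3⟩ := mem_fex.1 h2 r2 le_rfl
    have hr3r : r3 ≤ r := hr3.trans (hr2.trans hr1)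
    obtain ⟨m, hm⟩ := ENNReal.exists_inv_nat_lt r3.pos
    have hm' : ((m : ℝ≥0∞) + 1)⁻¹ < μ r3.set := lt_of_le_of_lt
      (ENNReal.inv_le_inv.2 le_self_add) hm
    have hpos : μ (r3.set ∩ D y m) ≠ 0 := by
      intro h0
      have h4 : μ r3.set ≤ μ (r3.set ∩ D y m) + μ (r3.set \ D y m) :=
        measure_le_inter_add_sdiff _ _ _
      have h5 : μ (r3.set \ D y m) ≤ μ (r.set \ D y m) + μ (r3.set \ r.set) := by
        refine (measure_mono ?_).trans (measure_union_le _ _)
        intro x hx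
        by_cases hxr : x ∈ r.set
        · exact Or.inl ⟨hxr, hx.2⟩
        · exact Or.inr ⟨hx.1, hxr⟩
      have h6 : μ (r3.set \ r.set) = 0 := hr3r
      rw [h0, zero_add] at h4
      rw [h6, add_zero] at h5
      exact absurd (h4.trans h5) (not_le.2 ((hDr y m).trans hm'))
    refine hf (h y m) ⟨(y, m), rfl⟩ ⟨N, fun n hn => ?_⟩
    have h4 := r3.inter_le (D y m) (hD y m) hpos
    have h5 := r3.inter_sub (D y m) (hD y m) hpos
    obtain ⟨t, ht, b, htb⟩ := IsFun.total
      (down_IsFun _ _ (hF1 y) (r3.inter (D y m) (hD y m) hpos) (h4.trans hr3r)) n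
    have h6 : b ≤ h y m n := hb y m t (ht.trans (h4.trans hr3r)) (null_trans ht h5) n b htb
    obtain ⟨t', ht', h7⟩ := mem_fimp.1 (h3 n hn (f n) b) t (ht.trans h4)
      ⟨mem_meets_check.2 rfl, htb⟩
    exact le_trans h7 h6

end

end Pool.Agent.TH763.Rand
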