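import Mathlib
import Pool.Agent.TH763.Rand.Alg

set_option autoImplicit false
set_option warn.classDefReducibility false

/-!
# The product measure on `2 ^ (L × ω)`: supports and independence
-/

namespace Pool.Agent.TH763.Rand

open Cardinal MeasureTheory Filter ProbabilityTheory
open scoped ENNReal Topology

/-- the fair coin measure on the two point space -/
noncomputable def coin : Measure Bool := (PMF.uniformOfFintype Bool).toMeasure

instance : IsProbabilityMeasure coin := by
  unfold coin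
  infer_instance

/-- the product measure on `2 ^ (L × ω)` -/
noncomputable def mu (L : Type) : Measure (L × ℕ → Bool) := Measure.infinitePi fun _ => coin

instance (L : Type) : IsProbabilityMeasure (mu L) := by
  unfold mu
  infer_instance

theorem coin_singleton (b : Bool) : coin {b} = 2⁻¹ := by
  unfold coin
  rw [PMF.toMeasure_apply_singleton _ _ (measurableSet_singleton b)]
  simp

section

variable {L : Type}

/-- the σ-algebra of one coordinate -/
def mc (i : L × ℕ) : MeasurableSpace (L × ℕ → Bool) :=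
  MeasurableSpace.comap (fun x => x i) inferInstance

theorem mc_le (i : L × ℕ) : mc i ≤ (MeasurableSpace.pi : MeasurableSpace (L × ℕ → Bool)) :=
  le_iSup (fun i : L × ℕ => mc i) i

/-- the σ-algebra of the coordinates in `T` -/
def mS (T : Set (L × ℕ)) : MeasurableSpace (L × ℕ → Bool) := ⨆ i ∈ T, mc i

theorem mS_mono {S T : Set (L × ℕ)} (h : S ⊆ T) : mS S ≤ mS T :=
  biSup_mono fun _ hi => h hi

theorem mS_le (T : Set (L × ℕ)) : mS T ≤ (MeasurableSpace.pi : MeasurableSpace (L × ℕ → Bool)) :=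
  iSup₂_le fun i _ => mc_le i

theorem mc_le_mS {T : Set (L × ℕ)} {i : L × ℕ} (h : i ∈ T) : mc i ≤ mS T :=
  le_iSup₂ (f := fun i (_ : i ∈ T) => mc i) i h

theorem meas_coord (i : L × ℕ) (b : Bool) : MeasurableSet[mc i] {x : L × ℕ → Bool | x i = b} :=
  ⟨{b}, measurableSet_singleton b, rfl⟩

theorem indep_mS {S T : Set (L × ℕ)} (h : Disjoint S T) : Indep (mS S) (mS T) (mu L) := by
  have h1 : iIndepFun (fun (i : L × ℕ) (x : L × ℕ → Bool) => id (x i)) (mu L) :=
    iIndepFun_infinitePi (P := fun _ : L × ℕ => coin) (X := fun _ => id) fun _ => measurable_id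
  exact indep_iSup_of_disjoint (m := mc) mc_le h1 h

theorem mu_coord (i : L × ℕ) (b : Bool) : mu L {x | x i = b} = 2⁻¹ := by
  have h : {x : L × ℕ → Bool | x i = b} = Set.pi (({i} : Finset (L × ℕ)) : Set (L × ℕ))
      (fun _ => {b}) := by
    ext x; simp
  rw [h, mu, Measure.infinitePi_pi _ (fun i _ => measurableSet_singleton b)]
  simp [coin_singleton]

theorem mu_inter_coord {T : Set (L × ℕ)} {i : L × ℕ} (hi : i ∉ T) {E : Set (L × ℕ → Bool)}
    (hE : MeasurableSet[mS T] E) (b : Bool) : mu L (E ∩ {x | x i = b}) = mu L E * 2⁻¹ := by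
  have h1 : Disjoint T ({i} : Set (L × ℕ)) := Set.disjoint_singleton_right.2 hi
  have h2 := (Indep_iff _ _ _).1 (indep_mS h1) E {x | x i = b} hE
    (mc_le_mS (Set.mem_singleton i) _ (meas_coord i b))
  rw [h2, mu_coord]

/-- a measurable set depends on countably many rows -/
theorem exists_rows {E : Set (L × ℕ → Bool)} (hE : MeasurableSet E) :
    ∃ C : Set L, C.Countable ∧ MeasurableSet[mS {i : L × ℕ | i.1 ∈ C}] E := by
  have hE' : MeasurableSet[⨆ i : L × ℕ, mc i] E := hE
  rw [MeasurableSpace.measurableSet_iSup] at hE'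
  induction hE' with
  | basic u hu =>
    obtain ⟨i, hi⟩ := hu
    exact ⟨{i.1}, Set.countable_singleton _, mc_le_mS (by simp) _ hi⟩
  | empty => exact ⟨∅, Set.countable_empty, @MeasurableSet.empty _ (mS _)⟩
  | compl t ht ih =>
    obtain ⟨C, h1, h2⟩ := ih ((MeasurableSpace.measurableSet_iSup (m := mc)).2 ht)
    exact ⟨C, h1, h2.compl⟩
  | iUnion f hf ih =>
    choose C h1 h2 using fun n => ih n ((MeasurableSpace.measurableSet_iSup (m := mc)).2 (hf n))
    refine ⟨⋃ n, C n, Set.countable_iUnion h1, ?_⟩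
    refine MeasurableSet.iUnion fun n => ?_
    refine mS_mono ?_ _ (h2 n)
    intro i hi
    exact Set.mem_iUnion.2 ⟨n, hi⟩

/-- the points for which the infinite set `{n | x ∈ b n}` is contained from `m` on in the set
of all `n` with `x (a, n) = i` -/
def Bad (b : ℕ → Set (L × ℕ → Bool)) (a : L) (i : Bool) (m : ℕ) : Set (L × ℕ → Bool) :=
  {x | (∀ k, ∃ n ≥ k, x ∈ b n) ∧ ∀ n ≥ m, x ∈ b n → x (a, n) = i}

theorem bad_aux {C : Set L} {b : ℕ → Set (L × ℕ → Bool)}
    (hb : ∀ n, MeasurableSet[mS {i : L × ℕ | i.1 ∈ C}] (b n)) {a : L} (ha : a ∉ C) (i : Bool)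
    (k : ℕ) : ∀ (m : ℕ) (E : Set (L × ℕ → Bool)),
      MeasurableSet[mS {j : L × ℕ | j.1 ∈ C ∨ (j.1 = a ∧ j.2 < m)}] E →
      mu L (E ∩ Bad b a i m) ≤ mu L E * 2⁻¹ ^ k := by
  induction k with
  | zero =>
    intro m E _
    rw [pow_zero, mul_one]
    exact measure_mono Set.inter_subset_left
  | succ k ih =>
    intro m E hE
    -- the first element of the infinite set from `m` on is `m + n`
    let A : ℕ → Set (L × ℕ → Bool) := fun n => b (m + n) \ ⋃ j ∈ Finset.range n, b (m + j)
    let T : ℕ → Set (L × ℕ) := fun m => {j : L × ℕ | j.1 ∈ C ∨ (j.1 = a ∧ j.2 < m)}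
    have hCT : ∀ m, {i : L × ℕ | i.1 ∈ C} ⊆ T m := fun m j hj => Or.inl hj
    have hTT : ∀ m m', m ≤ m' → T m ⊆ T m' := fun m m' h j hj =>
      hj.imp id fun h' => ⟨h'.1, h'.2.trans_le h⟩
    have hA : ∀ n, MeasurableSet[mS {i : L × ℕ | i.1 ∈ C}] (A n) := fun n =>
      MeasurableSet.diff (hb _) (Finset.measurableSet_biUnion _ fun j _ => hb _)
    have hEA : ∀ n, MeasurableSet[mS (T (m + n))] (E ∩ A n) := fun n =>
      MeasurableSet.inter (mS_mono (hTT m (m + n) (by omega)) _ hE)
        (mS_mono (hCT (m + n)) _ (hA n))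
    have hdisj : Pairwise (Function.onFun Disjoint fun n => E ∩ A n) := by
      intro n n' hne
      wlog hlt : n < n' generalizing n n' with H
      · exact (H hne.symm (by omega)).symm
      rw [Function.onFun, Set.disjoint_left]
      rintro x ⟨_, hx⟩ ⟨_, hx'⟩
      exact hx'.2 (Set.mem_biUnion (Finset.mem_coe.2 (Finset.mem_range.2 hlt)) hx.1)
    have hsub : E ∩ Bad b a i m ⊆
        ⋃ n, ((E ∩ A n) ∩ {x | x (a, m + n) = i}) ∩ Bad b a i (m + n + 1) := by
      rintro x ⟨hxE, hx1, hx2⟩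
      have hex : ∃ n, x ∈ b (m + n) := by
        obtain ⟨n, hn, hxn⟩ := hx1 m
        exact ⟨n - m, by rwa [Nat.add_sub_cancel' hn]⟩
      classical
      refine Set.mem_iUnion.2 ⟨Nat.find hex, ⟨⟨hxE, Nat.find_spec hex, ?_⟩, ?_⟩, hx1, ?_⟩
      · simp only [Set.mem_iUnion, not_exists]
        intro j hj
        exact Nat.find_min hex (Finset.mem_range.1 hj)
      · exact hx2 _ (by omega) (Nat.find_spec hex)
      · intro n hn
        exact hx2 n (by omega)
    calc mu L (E ∩ Bad b a i m)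
        ≤ mu L (⋃ n, ((E ∩ A n) ∩ {x | x (a, m + n) = i}) ∩ Bad b a i (m + n + 1)) :=
          measure_mono hsub
      _ ≤ ∑' n, mu L (((E ∩ A n) ∩ {x | x (a, m + n) = i}) ∩ Bad b a i (m + n + 1)) :=
          measure_iUnion_le _
      _ ≤ ∑' n, mu L (E ∩ A n) * 2⁻¹ ^ (k + 1) := by
          refine ENNReal.tsum_le_tsum fun n => ?_
          have h1 : (a, m + n) ∉ T (m + n) := by
            rintro (h | h)
            · exact ha h
            · exact absurd h.2 (by simp)
          have h2 : MeasurableSet[mS (T (m + n + 1))]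
              ((E ∩ A n) ∩ {x | x (a, m + n) = i}) :=
            MeasurableSet.inter (mS_mono (hTT (m + n) (m + n + 1) (by omega)) _ (hEA n))
              (mc_le_mS (Or.inr ⟨rfl, by simp⟩) _ (meas_coord _ _))
          refine (ih (m + n + 1) _ h2).trans ?_
          rw [mu_inter_coord h1 (hEA n), pow_succ', mul_assoc]
      _ = mu L (⋃ n, E ∩ A n) * 2⁻¹ ^ (k + 1) := by
          rw [ENNReal.tsum_mul_right, measure_iUnion hdisj fun n => mS_le _ _ (hEA n)]
      _ ≤ mu L E * 2⁻¹ ^ (k + 1) := by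
          gcongr
          exact Set.iUnion_subset fun n => Set.inter_subset_left

/-- The bad set is null. -/
theorem bad_null {C : Set L} {b : ℕ → Set (L × ℕ → Bool)}
    (hb : ∀ n, MeasurableSet[mS {i : L × ℕ | i.1 ∈ C}] (b n)) {a : L} (ha : a ∉ C) (i : Bool)
    (m : ℕ) : mu L (Bad b a i m) = 0 := by
  have h : ∀ k : ℕ, mu L (Bad b a i m) ≤ 2⁻¹ ^ k := by
    intro k
    have := bad_aux hb ha i k m Set.univ MeasurableSet.univ
    rwa [Set.univ_inter, measure_univ, one_mul] at this
  have hlim : Tendsto (fun k : ℕ => (2⁻¹ : ℝ≥0∞) ^ k) atTop (𝓝 0) :=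
    ENNReal.tendsto_pow_atTop_nhds_zero_of_lt_one (by norm_num)
  exact le_antisymm (ge_of_tendsto' hlim h) bot_le

end

end Pool.Agent.TH763.Rand
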