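import Mathlib
import Pool.Agent.TH763.Rand.Prod

set_option autoImplicit false

/-!
# Adding random reals destroys the strong polarized relation
-/

namespace Pool.Agent.TH763.Rand

open Cardinal MeasureTheory Filter
open scoped ENNReal Topology

/-- the forcing adding `L` random reals: the measure algebra of the product measure
on `2 ^ (L × ω)` -/
abbrev Random (L : Type) : Type := MAlg (mu L)

section

variable {L : Type}

/-- the set of the points whose coordinate `(a, n)` is `i` -/
def Cyl (a : L) (n : ℕ) (i : Bool) : Set (L × ℕ → Bool) := {x | x (a, n) = i}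

theorem exists_rows_seq {b : ℕ → Set (L × ℕ → Bool)} (hb : ∀ n, MeasurableSet (b n)) :
    ∃ C : Set L, C.Countable ∧ ∀ n, MeasurableSet[mS {j : L × ℕ | j.1 ∈ C}] (b n) := by
  have h := fun n => exists_rows (hb n)
  refine ⟨⋃ n, (h n).choose, Set.countable_iUnion fun n => (h n).choose_spec.1, fun n => ?_⟩
  refine mS_mono ?_ _ (h n).choose_spec.2
  intro j hj
  exact Set.mem_iUnion.2 ⟨n, hj⟩

theorem measurableSet_cyl (a : L) (n : ℕ) (i : Bool) : MeasurableSet (Cyl a n i) :=
  mc_le _ _ (meas_coord (a, n) i)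

/-- the name of the `a`-th random real, as a subset of `ω`: the condition `s` is attached to
`n` iff `s` decides that `n` belongs to it -/
def rname (a : L) (n : ℕ) : Set (Random L) := {s | mu L (s.set \ Cyl a n true) = 0}

theorem mem_meets_rname {a : L} {n : ℕ} {q : Random L} :
    q ∈ meets (rname a n) ↔ mu L (q.set \ Cyl a n true) = 0 := by
  constructor
  · intro h
    by_contra hpos
    have hm : MeasurableSet (q.set \ Cyl a n true) := q.meas.diff (measurableSet_cyl a n true)
    obtain ⟨r, hr, s, hs, hrs⟩ := h ⟨q.set \ Cyl a n true, hm, hpos⟩ (by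
      show mu L ((q.set \ Cyl a n true) \ q.set) = 0
      rw [show (q.set \ Cyl a n true) \ q.set = ∅ by
        ext x; simp only [Set.mem_sdiff, Set.mem_empty_iff_false, iff_false]; tauto]
      simp)
    have h4 : mu L (r.set \ Cyl a n true) = 0 := null_trans hrs hs
    have h5 : mu L (r.set \ (q.set \ Cyl a n true)) = 0 := hr
    apply r.pos
    refine measure_mono_null ?_ (measure_union_null h4 h5)
    intro x hx
    by_cases hv : x ∈ Cyl a n true
    · exact Or.inr ⟨hx, fun h => h.2 hv⟩
    · exact Or.inl ⟨hx, hv⟩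
  · intro h
    exact meets_of_le (s := q) h le_rfl

theorem mem_fnot_rname {a : L} {n : ℕ} {q : Random L} (h : q ∈ fnot (meets (rname a n))) :
    mu L (q.set \ Cyl a n false) = 0 := by
  by_contra hpos
  have hm : MeasurableSet (Cyl a n true) := measurableSet_cyl a n true
  have hsub : q.set \ Cyl a n false ⊆ q.set ∩ Cyl a n true := by
    rintro x ⟨hx, hx'⟩
    refine ⟨hx, ?_⟩
    have : x (a, n) ≠ false := hx'
    exact (Bool.ne_false_iff).1 this
  have hpos' : mu L (q.set ∩ Cyl a n true) ≠ 0 := fun h0 => hpos (measure_mono_null hsub h0)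
  exact h (q.inter _ hm hpos') (q.inter_le _ _ _) (mem_meets_rname.2 (q.inter_sub _ _ _))

/-- The relation fails in the extension at every uncountable cardinal up to the number of the
random reals added. -/
theorem not_polarized {K : Type} (hK : ℵ₀ < #K) (e : K → L) (he : Function.Injective e)
    (p : Random L) : p ∈ fnot (Polarized (Random L) K ℕ) := by
  intro q hq hpol
  obtain ⟨r0, hr0, A, hA0⟩ := mem_fex.1 (hpol fun k n => rname (e k) n) q le_rfl
  obtain ⟨r1, hr1, B, hfullA, hfullB, hhom⟩ := mem_fex.1 hA0 r0 le_rfl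
  obtain ⟨r, hr, hhom⟩ := mem_for.1 hhom r1 le_rfl
  replace hfullA := down_HasFullSize A _ hfullA r hr
  replace hfullB := down_HasFullSize B _ hfullB r hr
  -- uniform form of homogeneity
  obtain ⟨i, hi⟩ : ∃ i : Bool, ∀ (k : K) (n : ℕ), ∀ t ≤ r, t ∈ meets (A k) → t ∈ meets (B n) →
      ∃ t' ≤ t, mu L (t'.set \ Cyl (e k) n i) = 0 := by
    rcases hhom with h | h
    · refine ⟨true, fun k n t ht h1 h2 => ?_⟩
      obtain ⟨t', ht', h3⟩ := mem_fimp.1 (h k n) t ht ⟨h1, h2⟩
      exact ⟨t', ht', mem_meets_rname.1 h3⟩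
    · refine ⟨false, fun k n t ht h1 h2 => ?_⟩
      obtain ⟨t', ht', h3⟩ := mem_fimp.1 (h k n) t ht ⟨h1, h2⟩
      exact ⟨t', ht', mem_fnot_rname h3⟩
  -- the countable support
  obtain ⟨b, hbm, hval⟩ : ∃ b : ℕ → Set (L × ℕ → Bool), (∀ n, MeasurableSet (b n)) ∧
      ∀ n (t : Random L), t ∈ meets (B n) ↔ mu L (t.set \ b n) = 0 :=
    ⟨fun n => val (B n), fun n => measurableSet_val (B n), fun n t => mem_meets⟩
  obtain ⟨C, hC, hb⟩ := exists_rows_seq hbm
  -- the set is infinite almost everywhere on `r`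
  have hinf : ∀ k, mu L (r.set \ ⋃ n ∈ Set.Ici k, b n) = 0 := by
    intro k
    by_contra hpos
    have hm : MeasurableSet (r.set \ ⋃ n ∈ Set.Ici k, b n) :=
      r.meas.diff (MeasurableSet.biUnion (Set.to_countable _) fun n _ => hbm n)
    let r' : Random L := ⟨_, hm, hpos⟩
    have hr' : r' ≤ r := by
      show mu L ((r.set \ ⋃ n ∈ Set.Ici k, b n) \ r.set) = 0
      rw [show (r.set \ ⋃ n ∈ Set.Ici k, b n) \ r.set = ∅ by
        ext x; simp only [Set.mem_sdiff, Set.mem_empty_iff_false, iff_false]; tauto]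
      simp
    obtain ⟨t, ht, n, hn, htn⟩ := exists_mem_ge (down_HasFullSize B _ hfullB r' hr') k
    have h1 : mu L (t.set \ b n) = 0 := (hval n t).1 htn
    have h2 : mu L (t.set \ (r.set \ ⋃ n ∈ Set.Ici k, b n)) = 0 := ht
    apply t.pos
    refine measure_mono_null ?_ (measure_union_null h1 h2)
    intro x hx
    by_cases hxb : x ∈ b n
    · exact Or.inr ⟨hx, fun h => h.2 (Set.mem_biUnion (show n ∈ Set.Ici k from hn) hxb)⟩
    · exact Or.inl ⟨hx, hxb⟩
  -- `A` is contained in the countable set of the indices in `C`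
  have hAC : ∀ k, e k ∉ C → ∀ r' ≤ r, r' ∉ meets (A k) := by
    intro k hk r' hr' hmeet
    have h1 : ∀ n, mu L ((r'.set ∩ b n) \ Cyl (e k) n i) = 0 := by
      intro n
      by_contra hpos
      have hm : MeasurableSet ((r'.set ∩ b n) \ Cyl (e k) n i) :=
        (r'.meas.inter (hbm n)).diff (measurableSet_cyl _ _ _)
      let t : Random L := ⟨_, hm, hpos⟩
      have ht : t ≤ r' := by
        show mu L (((r'.set ∩ b n) \ Cyl (e k) n i) \ r'.set) = 0
        rw [show ((r'.set ∩ b n) \ Cyl (e k) n i) \ r'.set = ∅ by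
          ext x
          simp only [Set.mem_sdiff, Set.mem_inter_iff, Set.mem_empty_iff_false, iff_false]
          tauto]
        simp
      have htb : t ∈ meets (B n) := by
        rw [hval]
        show mu L (((r'.set ∩ b n) \ Cyl (e k) n i) \ b n) = 0
        rw [show ((r'.set ∩ b n) \ Cyl (e k) n i) \ b n = ∅ by
          ext x
          simp only [Set.mem_sdiff, Set.mem_inter_iff, Set.mem_empty_iff_false, iff_false]
          tauto]
        simp
      obtain ⟨t', ht', h3⟩ := hi k n t (ht.trans hr') (down_meets _ _ hmeet t ht) htb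
      have h4 : mu L (t'.set \ ((r'.set ∩ b n) \ Cyl (e k) n i)) = 0 := ht'
      apply t'.pos
      refine measure_mono_null ?_ (measure_union_null h3 h4)
      intro x hx
      by_cases hxc : x ∈ Cyl (e k) n i
      · exact Or.inr ⟨hx, fun h => h.2 hxc⟩
      · exact Or.inl ⟨hx, hxc⟩
    have h2 : mu L (r'.set \ r.set) = 0 := hr'
    have h3 : mu L (⋃ k, (r.set \ ⋃ n ∈ Set.Ici k, b n)) = 0 := measure_iUnion_null hinf
    have h4 : mu L (⋃ n, ((r'.set ∩ b n) \ Cyl (e k) n i)) = 0 := measure_iUnion_null h1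
    have h5 : mu L (Bad b (e k) i 0) = 0 := bad_null hb hk i 0
    apply r'.pos
    refine measure_mono_null ?_ (measure_union_null (measure_union_null h2 h3)
      (measure_union_null h4 h5))
    intro x hx
    by_cases hxr : x ∈ r.set
    swap
    · exact Or.inl (Or.inl ⟨hx, hxr⟩)
    by_cases hxi : ∀ k, x ∈ ⋃ n ∈ Set.Ici k, b n
    swap
    · push Not at hxi
      obtain ⟨k', hk'⟩ := hxi
      exact Or.inl (Or.inr (Set.mem_iUnion.2 ⟨k', hxr, hk'⟩))
    by_cases hxc : ∀ n, x ∈ b n → x ∈ Cyl (e k) n i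
    · refine Or.inr (Or.inr ⟨fun k' => ?_, fun n _ hn => hxc n hn⟩)
      have := hxi k'
      simp only [Set.mem_iUnion] at this
      obtain ⟨n, hn, hn'⟩ := this
      exact ⟨n, hn, hn'⟩
    · push Not at hxc
      obtain ⟨n, hn, hn'⟩ := hxc
      exact Or.inr (Or.inl (Set.mem_iUnion.2 ⟨n, ⟨hx, hn⟩, hn'⟩))
  -- the set `A` is not of full size
  obtain ⟨s, hs, R, hR1, hR2, hR3⟩ := mem_fex.1 hfullA r le_rfl
  have hex : ∀ x : K, ∃ t ≤ s, ∃ y, t ∈ meets (R x y) ∧ t ∈ meets (A y) := by
    intro x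
    obtain ⟨t, ht, y, hy⟩ := mem_fex.1 (hR1.1 x) s le_rfl
    obtain ⟨t', ht', h2⟩ := mem_fimp.1 (hR3 x y) t ht hy
    exact ⟨t', ht'.trans ht, y, down_meets _ _ hy _ ht', h2⟩
  choose t ht y hy1 hy2 using hex
  have hyC : ∀ x, e (y x) ∈ C := by
    intro x
    by_contra hcon
    exact hAC (y x) hcon (t x) ((ht x).trans hs) (hy2 x)
  have hcount : ∀ k, ({x | y x = k} : Set K).Countable := by
    intro k
    by_contra hcon
    rw [← Cardinal.le_aleph0_iff_set_countable, not_le] at hcon
    obtain ⟨x, x', hne, u, hu, hu'⟩ := MAlg.ccc ({x | y x = k} : Set K) (fun x => t x.1) hcon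
    apply hne
    apply Subtype.ext
    have h1 := down_meets _ _ (hy1 x.1) u hu
    have h2 := down_meets _ _ (hy1 x'.1) u hu'
    have e1 : y x.1 = k := x.2
    have e2 : y x'.1 = k := x'.2
    rw [e1] at h1
    rw [e2] at h2
    exact IsInj.eq (down_IsInj R _ hR2 u (hu.trans (ht x.1))) h1 h2
  have huniv : (Set.univ : Set K).Countable := by
    refine ((hC.preimage he).biUnion (t := fun k _ => {x | y x = k}) fun k _ => hcount k).mono ?_
    intro x _
    exact Set.mem_biUnion (show y x ∈ e ⁻¹' C from hyC x) rfl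
  rw [Set.countable_univ_iff] at huniv
  exact absurd (Cardinal.mk_le_aleph0) (not_le.2 hK)

end

end Pool.Agent.TH763.Rand
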